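import Mathlib
import Pool.Agent.H6W.Path

set_option autoImplicit false

/-!
MP_ffc906_nt, partial answer to Q1: in every realisation of the graph `C₅ + K₂` as a graph `D(V)`
at least two of its five 4-cliques are irregular Diophantine quadruples.
-/

namespace Pool.Agent.Results.MP_ffc906_nt.TwoIrregular

open H6W (S path)

/-- The graph `D(V)`: distinct `a, b ∈ V` are adjacent iff `a*b+1` is a perfect square. -/
def D (V : Finset ℕ) : SimpleGraph V where
  Adj a b := a ≠ b ∧ IsSquare ((a : ℕ) * b + 1)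
  symm := by
    constructor
    rintro a b ⟨h1, h2⟩
    exact ⟨h1.symm, by rw [mul_comm]; exact h2⟩
  loopless := by
    constructor
    rintro a ⟨h1, _⟩
    exact h1 rfl

/-- The graph of the problem: a 5-cycle (vertices `inl i`, `i ∈ ℤ/5`) and two further vertices
`inr 0`, `inr 1`, adjacent to each other and to every vertex of the cycle. -/
def G : SimpleGraph (ZMod 5 ⊕ Fin 2) where
  Adj x y := match x, y with
    | .inl i, .inl j => j = i + 1 ∨ i = j + 1
    | .inl _, .inr _ => True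
    | .inr _, .inl _ => True
    | .inr i, .inr j => i ≠ j
  symm := by
    constructor
    rintro (i | i) (j | j) h
    · exact Or.symm h
    · trivial
    · trivial
    · exact Ne.symm h
  loopless := by
    constructor
    rintro (i | i) h
    · rcases h with h | h <;> revert i <;> decide
    · exact h rfl

/-- A Diophantine quadruple: four positive integers, the product of any two, plus one, a
perfect square. -/
def IsQuadruple (Q : Finset ℕ) : Prop :=
  Q.card = 4 ∧ (∀ a ∈ Q, 0 < a) ∧ ∀ a ∈ Q, ∀ b ∈ Q, a ≠ b → IsSquare (a * b + 1)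

/-- `Q = {a, b, c, d₊}` or `Q = {a, b, c, d₋}`, where `ab+1 = r²`, `ac+1 = s²`, `bc+1 = t²` and
`d₊, d₋ = a+b+c+2abc ± 2rst`. -/
def IsRegular (Q : Finset ℕ) : Prop :=
  ∃ a b c d r s t : ℕ, Q = {a, b, c, d} ∧
    a*b + 1 = r^2 ∧ a*c + 1 = s^2 ∧ b*c + 1 = t^2 ∧
    ((d : ℤ) = a + b + c + 2*a*b*c + 2*r*s*t ∨ (d : ℤ) = a + b + c + 2*a*b*c - 2*r*s*t)

/-- symmetric function of a finite set -/
def F (Q : Finset ℕ) : ℤ :=
  2 * ∑ x ∈ Q, (x:ℤ)^2 - (∑ x ∈ Q, (x:ℤ))^2 - 4 * ∏ x ∈ Q, (x:ℤ) - 4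

lemma F_eq {a b c d : ℕ} (h : ({a, b, c, d} : Finset ℕ).card = 4) :
    F {a, b, c, d} = S a b c d := by
  have h1 : a ∉ ({b, c, d} : Finset ℕ) := by
    intro hh
    rw [Finset.insert_eq_of_mem hh] at h
    have := Finset.card_le_three (a := b) (b := c) (c := d)
    omega
  rw [Finset.card_insert_of_notMem h1] at h
  have h2 : b ∉ ({c, d} : Finset ℕ) := by
    intro hh
    rw [Finset.insert_eq_of_mem hh] at h
    have := Finset.card_le_two (a := c) (b := d)
    omega
  rw [Finset.card_insert_of_notMem h2] at h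
  have h3 : c ∉ ({d} : Finset ℕ) := by
    intro hh
    rw [Finset.insert_eq_of_mem hh, Finset.card_singleton] at h
    omega
  unfold F S
  rw [Finset.sum_insert h1, Finset.sum_insert h2, Finset.sum_insert h3, Finset.sum_singleton,
    Finset.sum_insert h1, Finset.sum_insert h2, Finset.sum_insert h3, Finset.sum_singleton,
    Finset.prod_insert h1, Finset.prod_insert h2, Finset.prod_insert h3, Finset.prod_singleton]
  ring

lemma regular_S {a b c d : ℕ} (h : ({a, b, c, d} : Finset ℕ).card = 4)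
    (hr : IsRegular {a, b, c, d}) : S a b c d = 0 := by
  obtain ⟨a', b', c', d', r, s, t, hQ, h1, h2, h3, h4⟩ := hr
  have e1 : F {a, b, c, d} = S a b c d := F_eq h
  have e2 : F {a', b', c', d'} = S a' b' c' d' := F_eq (by rw [← hQ]; exact h)
  rw [← e1, hQ, e2]
  have h1' : (a':ℤ)*b' + 1 = r^2 := by exact_mod_cast h1
  have h2' : (a':ℤ)*c' + 1 = s^2 := by exact_mod_cast h2
  have h3' : (b':ℤ)*c' + 1 = t^2 := by exact_mod_cast h3
  have e3 : ((d':ℤ) - (a'+b'+c'+2*a'*b'*c'))^2 = (2*r*s*t)^2 := by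
    rcases h4 with h4 | h4 <;> rw [h4] <;> ring
  have e4 : (2*(r:ℤ)*s*t)^2 = 4*(a'*b'+1)*(a'*c'+1)*(b'*c'+1) := by
    rw [h1', h2', h3']; ring
  rw [e4] at e3
  unfold S
  linear_combination e3

lemma card_quad {u v : ℕ} {x y : ℕ} (huv : u ≠ v) (hux : u ≠ x) (huy : u ≠ y) (hvx : v ≠ x)
    (hvy : v ≠ y) (hxy : x ≠ y) : ({u, v, x, y} : Finset ℕ).card = 4 := by
  rw [Finset.card_insert_of_notMem (by simp [huv, hux, huy]),
    Finset.card_insert_of_notMem (by simp [hvx, hvy]),
    Finset.card_insert_of_notMem (by simp [hxy]), Finset.card_singleton]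

/-- Arithmetic form: at least two of the five quadruples are irregular. -/
theorem two_irregular {u v : ℕ} {c : ZMod 5 → ℕ} (hu : 0 < u) (hv : 0 < v)
    (hc : ∀ i, 0 < c i) (huv : u ≠ v) (huc : ∀ i, u ≠ c i) (hvc : ∀ i, v ≠ c i)
    (hinj : Function.Injective c) (s0 : IsSquare (u*v+1)) (su : ∀ i, IsSquare (u * c i + 1))
    (sv : ∀ i, IsSquare (v * c i + 1)) (sc : ∀ i, IsSquare (c i * c (i+1) + 1)) :
    ∃ i j : ZMod 5, i ≠ j ∧ ¬ IsRegular {u, v, c i, c (i+1)} ∧
      ¬ IsRegular {u, v, c j, c (j+1)} := by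
  by_contra hcon
  push Not at hcon
  -- all but at most one index are regular
  obtain ⟨i0, hi0⟩ : ∃ i0 : ZMod 5, ∀ i, i ≠ i0 → IsRegular {u, v, c i, c (i+1)} := by
    by_cases h : ∃ i, ¬ IsRegular {u, v, c i, c (i+1)}
    · obtain ⟨i, hi⟩ := h
      exact ⟨i, fun j hj => hcon i j (Ne.symm hj) hi⟩
    · push Not at h
      exact ⟨0, fun i _ => h i⟩
  have cz : ∀ n : ℕ, IsSquare n → IsSquare (n : ℤ) := by
    rintro n ⟨m, rfl⟩
    exact ⟨m, by push_cast; ring⟩
  have ne : ∀ a b : ZMod 5, a ≠ b → c (i0 + a) ≠ c (i0 + b) := by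
    intro a b hab h
    exact hab (add_left_cancel (hinj h))
  have key : ∀ a : ZMod 5, a ≠ 0 → S u v (c (i0+a)) (c (i0+(a+1))) = 0 := by
    intro a ha
    have h1 : i0 + a ≠ i0 := by
      intro h
      exact ha (by simpa using h)
    have h2 := hi0 _ h1
    rw [add_assoc] at h2
    refine regular_S (card_quad huv (huc _) (huc _) (hvc _) (hvc _) (ne _ _ ?_)) h2
    exact (by decide : ∀ a : ZMod 5, a ≠ a + 1) a
  have S12 : S u v (c (i0+1)) (c (i0+2)) = 0 := key 1 (by decide)
  have S23 : S u v (c (i0+2)) (c (i0+3)) = 0 := key 2 (by decide)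
  have S34 : S u v (c (i0+3)) (c (i0+4)) = 0 := key 3 (by decide)
  have S45 : S u v (c (i0+4)) (c (i0+0)) = 0 := key 4 (by decide)
  have pc : ∀ a : ZMod 5, (0:ℤ) < c (i0+a) := fun a => by exact_mod_cast hc _
  have nz : ∀ m n : ℕ, m ≠ n → (m:ℤ) ≠ n := fun m n h => by exact_mod_cast h
  refine path (u := u) (v := v) (x1 := c (i0+1)) (x2 := c (i0+2)) (x3 := c (i0+3))
    (x4 := c (i0+4)) (x5 := c (i0+0)) (by exact_mod_cast hu) (by exact_mod_cast hv)
    (nz _ _ huv) (by exact_mod_cast cz _ s0) (pc _) (pc _) (pc _) (pc _) (pc _)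
    ⟨nz _ _ (huc _), nz _ _ (huc _), nz _ _ (huc _), nz _ _ (huc _), nz _ _ (huc _)⟩
    ⟨nz _ _ (hvc _), nz _ _ (hvc _), nz _ _ (hvc _), nz _ _ (hvc _), nz _ _ (hvc _)⟩
    (nz _ _ (ne _ _ (by decide))) (nz _ _ (ne _ _ (by decide))) (nz _ _ (ne _ _ (by decide)))
    (nz _ _ (ne _ _ (by decide))) (nz _ _ (ne _ _ (by decide))) (nz _ _ (ne _ _ (by decide)))
    (nz _ _ (ne _ _ (by decide)))
    (by exact_mod_cast cz _ (su (i0+1))) (by exact_mod_cast cz _ (sv (i0+1)))
    (by exact_mod_cast cz _ (su (i0+0))) (by exact_mod_cast cz _ (sv (i0+0)))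
    S12 S23 S34 S45 ?_
  have := cz _ (sc i0)
  rw [add_zero, mul_comm]
  exact_mod_cast this

/-- If `D(V)` is isomorphic to the graph `G` of the problem, then `V` contains two different
irregular Diophantine quadruples, and these have (at least) two elements in common. -/
theorem result (V : Finset ℕ) (hV : ∀ n ∈ V, 0 < n) (h : Nonempty (G ≃g D V)) :
    ∃ Q Q' : Finset ℕ, Q ⊆ V ∧ Q' ⊆ V ∧ Q ≠ Q' ∧ 2 ≤ (Q ∩ Q').card ∧
      IsQuadruple Q ∧ ¬ IsRegular Q ∧ IsQuadruple Q' ∧ ¬ IsRegular Q' := by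
  obtain ⟨e⟩ := h
  obtain ⟨u, hu⟩ : ∃ u : ℕ, u = (e (Sum.inr 0) : ℕ) := ⟨_, rfl⟩
  obtain ⟨v, hv⟩ : ∃ v : ℕ, v = (e (Sum.inr 1) : ℕ) := ⟨_, rfl⟩
  obtain ⟨c, hc⟩ : ∃ c : ZMod 5 → ℕ, c = fun i => (e (Sum.inl i) : ℕ) := ⟨_, rfl⟩
  have hci : ∀ i, c i = (e (Sum.inl i) : ℕ) := fun i => by rw [hc]
  have inj : ∀ a b : ZMod 5 ⊕ Fin 2, a ≠ b → (e a : ℕ) ≠ (e b : ℕ) := by
    intro a b hab h
    exact hab (e.injective (Subtype.ext h))
  have adj : ∀ a b : ZMod 5 ⊕ Fin 2, G.Adj a b → IsSquare ((e a : ℕ) * (e b : ℕ) + 1) := by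
    intro a b hab
    exact ((e.map_adj_iff).2 hab).2
  have memV : ∀ a, (e a : ℕ) ∈ V := fun a => (e a).2
  have huv : u ≠ v := by rw [hu, hv]; exact inj _ _ (by decide)
  have huc : ∀ i, u ≠ c i := fun i => by rw [hu, hci]; exact inj _ _ (by simp)
  have hvc : ∀ i, v ≠ c i := fun i => by rw [hv, hci]; exact inj _ _ (by simp)
  have hinj : Function.Injective c := by
    intro i j hij
    by_contra hne
    rw [hci, hci] at hij
    exact inj (Sum.inl i) (Sum.inl j) (by simpa using hne) hij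
  have s0 : IsSquare (u*v+1) := by
    rw [hu, hv]; exact adj _ _ (show (0 : Fin 2) ≠ 1 by decide)
  have su : ∀ i, IsSquare (u * c i + 1) := fun i => by rw [hu, hci]; exact adj _ _ trivial
  have sv : ∀ i, IsSquare (v * c i + 1) := fun i => by rw [hv, hci]; exact adj _ _ trivial
  have sc : ∀ i, IsSquare (c i * c (i+1) + 1) := fun i => by
    rw [hci, hci]; exact adj _ _ (Or.inl rfl)
  have pu : 0 < u := by rw [hu]; exact hV _ (memV _)
  have pv : 0 < v := by rw [hv]; exact hV _ (memV _)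
  have pc : ∀ i, 0 < c i := fun i => by rw [hci]; exact hV _ (memV _)
  obtain ⟨i, j, hij, hi, hj⟩ := two_irregular pu pv pc huv huc hvc hinj s0 su sv sc
  have hsucc : ∀ i : ZMod 5, i ≠ i + 1 := by decide
  have quad : ∀ i, IsQuadruple {u, v, c i, c (i+1)} := by
    intro i
    refine ⟨card_quad huv (huc _) (huc _) (hvc _) (hvc _) (hinj.ne (hsucc i)), ?_, ?_⟩
    · intro a ha
      simp only [Finset.mem_insert, Finset.mem_singleton] at ha
      rcases ha with rfl | rfl | rfl | rfl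
      · exact pu
      · exact pv
      · exact pc _
      · exact pc _
    · intro a ha b hb hab
      have com : ∀ m n : ℕ, IsSquare (m*n+1) → IsSquare (n*m+1) := by
        intro m n hmn; rw [mul_comm]; exact hmn
      simp only [Finset.mem_insert, Finset.mem_singleton] at ha hb
      rcases ha with ha | ha | ha | ha <;> rcases hb with hb | hb | hb | hb <;> rw [ha, hb]
      · exact absurd (ha.trans hb.symm) hab
      · exact s0
      · exact su _
      · exact su _
      · exact com _ _ s0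
      · exact absurd (ha.trans hb.symm) hab
      · exact sv _
      · exact sv _
      · exact com _ _ (su _)
      · exact com _ _ (sv _)
      · exact absurd (ha.trans hb.symm) hab
      · exact sc _
      · exact com _ _ (su _)
      · exact com _ _ (sv _)
      · exact com _ _ (sc _)
      · exact absurd (ha.trans hb.symm) hab
  have sub : ∀ i, ({u, v, c i, c (i+1)} : Finset ℕ) ⊆ V := by
    intro i a ha
    simp only [Finset.mem_insert, Finset.mem_singleton] at ha
    rcases ha with ha | ha | ha | ha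
    · rw [ha, hu]; exact memV _
    · rw [ha, hv]; exact memV _
    · rw [ha, hci]; exact memV _
    · rw [ha, hci]; exact memV _
  refine ⟨{u, v, c i, c (i+1)}, {u, v, c j, c (j+1)}, sub i, sub j, ?_, ?_, quad i, hi,
    quad j, hj⟩
  · intro heq
    have h1 : c i ∈ ({u, v, c j, c (j+1)} : Finset ℕ) := by rw [← heq]; simp
    have h2 : c (i+1) ∈ ({u, v, c j, c (j+1)} : Finset ℕ) := by rw [← heq]; simp
    simp only [Finset.mem_insert, Finset.mem_singleton] at h1 h2
    have k1 : i = j ∨ i = j + 1 := by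
      rcases h1 with h1 | h1 | h1 | h1
      · exact absurd h1.symm (huc _)
      · exact absurd h1.symm (hvc _)
      · exact Or.inl (hinj h1)
      · exact Or.inr (hinj h1)
    have k2 : i + 1 = j ∨ i + 1 = j + 1 := by
      rcases h2 with h2 | h2 | h2 | h2
      · exact absurd h2.symm (huc _)
      · exact absurd h2.symm (hvc _)
      · exact Or.inl (hinj h2)
      · exact Or.inr (hinj h2)
    exact (by decide : ∀ i j : ZMod 5, i ≠ j → (i = j ∨ i = j + 1) →
      (i + 1 = j ∨ i + 1 = j + 1) → False) i j hij k1 k2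
  · have h2 : ({u, v} : Finset ℕ) ⊆ {u, v, c i, c (i+1)} ∩ {u, v, c j, c (j+1)} := by
      intro a ha
      simp only [Finset.mem_insert, Finset.mem_singleton, Finset.mem_inter] at ha ⊢
      rcases ha with ha | ha <;> simp [ha]
    calc 2 = ({u, v} : Finset ℕ).card := (Finset.card_pair huv).symm
      _ ≤ _ := Finset.card_le_card h2

end Pool.Agent.Results.MP_ffc906_nt.TwoIrregular
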